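import Pool.Agent.Helper53.PF.St

/-!
# Project PF (MP_ad0dc2_nt), module DVT: degrees of the divisors of `z ^ 3 - n`
-/

set_option autoImplicit false

namespace PF.Helper98

open Polynomial

private theorem dvt_irr {n : ℚ} (hn : ∀ a : ℚ, a ^ 3 ≠ n) {p z : ℚ[X]} (hp : Irreducible p)
    (hd : p ∣ z ^ 3 - C n) : 3 ∣ p.natDegree := by
  have hirr : Irreducible (X ^ 3 - C n : ℚ[X]) :=
    X_pow_sub_C_irreducible_of_prime Nat.prime_three hn
  haveI : Fact (Irreducible p) := ⟨hp⟩
  have hfin : Module.finrank ℚ (AdjoinRoot p) = p.natDegree := by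
    rw [(AdjoinRoot.powerBasis hp.ne_zero).finrank, AdjoinRoot.powerBasis_dim]
  haveI : Module.Finite ℚ (AdjoinRoot p) := (AdjoinRoot.powerBasis hp.ne_zero).finite
  have hroot : (AdjoinRoot.mk p z) ^ 3 = algebraMap ℚ (AdjoinRoot p) n := by
    have h1 : AdjoinRoot.mk p (z ^ 3 - C n) = 0 := AdjoinRoot.mk_eq_zero.2 hd
    rw [map_sub, map_pow, sub_eq_zero] at h1
    rw [h1]
    rfl
  have hmin : X ^ 3 - C n = minpoly ℚ (AdjoinRoot.mk p z) := by
    refine minpoly.eq_of_irreducible_of_monic hirr ?_ (monic_X_pow_sub_C n (by norm_num))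
    rw [map_sub, map_pow, aeval_X, aeval_C, hroot, sub_self]
  have h3 : (minpoly ℚ (AdjoinRoot.mk p z)).natDegree ∣ Module.finrank ℚ (AdjoinRoot p) :=
    minpoly.degree_dvd (Algebra.IsIntegral.isIntegral _)
  rw [← hmin, natDegree_X_pow_sub_C, hfin] at h3
  exact h3

theorem holds_DVT : PF.StDVT := by
  intro n hn f z
  induction f using WfDvdMonoid.induction_on_irreducible with
  | zero => exact fun h => absurd rfl h
  | unit u hu =>
    intro _ _
    rw [natDegree_eq_zero_of_isUnit hu]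
    exact dvd_zero 3
  | mul a i ha hi ih =>
    intro _ hd
    rw [natDegree_mul hi.ne_zero ha]
    exact dvd_add (dvt_irr hn hi (dvd_of_mul_right_dvd hd)) (ih ha (dvd_of_mul_left_dvd hd))

end PF.Helper98
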